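import Mathlib

set_option autoImplicit false
open scoped Classical Cardinal
open Filter Topology

namespace Pool.Agent.W601.SQ

noncomputable section

/-! # A reflexive precompact group without nontrivial separable quotients (S01449)

The group `GG θ ≤ (ℝ → Circle)` consists of the functions `β ↦ exp (2πi ∑ m α * θ α β)`,
`m : ℝ →₀ ℤ`, for a suitable matrix `θ : ℝ → ℝ → ℝ` of angles. -/

/-- Distance to the nearest integer. -/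
def nm (y : ℝ) : ℝ := ‖((y : ℝ) : UnitAddCircle)‖

/-- The point of the circle with angle `2πy`. -/
def cx (y : ℝ) : Circle := Circle.exp (2 * Real.pi * y)

/-- The pairing of `m : ℝ →₀ ℤ` with a family of reals. -/
def ip {ι : Type} (m : ι →₀ ℤ) (y : ι → ℝ) : ℝ := m.sum (fun i a => (a : ℝ) * y i)

/-- The targets. -/
def tg (J : Set ℕ) (j : ℕ) : ℝ := if j ∈ J then 1 / 2 else 0

/-- The characters of `ι → Circle`. -/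
def ch {ι : Type} (s : ι →₀ ℤ) (x : ι → Circle) : Circle := s.prod (fun i a => x i ^ a)

/-- The elements of the group. -/
def gm (θ : ℝ → ℝ → ℝ) (m : ℝ →₀ ℤ) : ℝ → Circle := fun β => cx (ip m (fun α => θ α β))

/-- The group. -/
def GG (θ : ℝ → ℝ → ℝ) : Subgroup (ℝ → Circle) := Subgroup.closure (Set.range (gm θ))

/-- The properties of the matrix of angles. -/
def Good (θ : ℝ → ℝ → ℝ) : Prop :=
  (∀ s : ℕ → (ℝ →₀ ℤ), Function.Injective s → ∃ φ : ℕ → ℕ, StrictMono φ ∧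
    ∀ J : Set ℕ, ∃ α : ℝ, ∀ j, nm (ip (s (φ j)) (θ α) - tg J j) ≤ 1 / 8) ∧
  (∀ (A : Set ℝ) (f : ℝ → ℝ), A.Countable → ∃ β, ∀ α ∈ A, θ α β = f α) ∧
  (∃ E : ℝ → Set ℝ, (∀ β, (E β).Countable) ∧ ∀ (m : (ℝ × ℝ) →₀ ℤ) (n : ℤ),
    (∀ p ∈ m.support, p.1 ∉ E p.2) → ip m (fun p => θ p.1 p.2) = n → m = 0) ∧
  (∀ β, ∃ z : ℝ, ∀ (m : ℝ →₀ ℤ) (n : ℤ), ip m (fun α => θ α β) + n ≠ z) ∧
  (∀ (F : Finset ℝ) (t : ℝ → ℝ) (ε : ℝ), 0 < ε → ∃ α, ∀ β ∈ F, |θ α β - t β| < ε)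

/-! ## Part I: construction of the matrix -/

/-- Independent transversals. -/
def S_TI : Prop := ∀ (I : Type) (Y : I → Set ℝ), #I ≤ 𝔠 → (∀ i, 𝔠 ≤ #(Y i)) →
  ∃ θ : I → ℝ, (∀ i, θ i ∈ Y i) ∧ ∀ (m : I →₀ ℤ) (n : ℤ), ip m θ = n → m = 0

/-- Levels and codes. -/
def S_IDX : Prop := ∀ C : Type, #C ≤ 𝔠 → Nonempty C →
  ∃ (Ω : Type) (_ : LinearOrder Ω) (lev : ℝ → Ω) (code : ℝ → C),
    (∀ S : Set Ω, S.Countable → ∃ b, ∀ x ∈ S, x < b) ∧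
    ∀ (b : Ω) (c : C), ∃ α, lev α = b ∧ code α = c

/-- The matrix. -/
def S_MAT : Prop := ∀ (ι : Type) (Y : ι → ℝ → Set ℝ), #ι ≤ 𝔠 → (∀ i β, 𝔠 ≤ #(Y i β)) →
  (∀ i, {β | Y i β ≠ Set.univ}.Countable) → ∃ θ : ℝ → ℝ → ℝ,
    (∀ i, ∃ α, ∀ β, θ α β ∈ Y i β) ∧
    (∀ (A : Set ℝ) (f : ℝ → ℝ), A.Countable → ∃ β, ∀ α ∈ A, θ α β = f α) ∧
    (∃ E : ℝ → Set ℝ, (∀ β, (E β).Countable) ∧ ∀ (m : (ℝ × ℝ) →₀ ℤ) (n : ℤ),
      (∀ p ∈ m.support, p.1 ∉ E p.2) → ip m (fun p => θ p.1 p.2) = n → m = 0) ∧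
    (∀ β, ∃ z : ℝ, ∀ (m : ℝ →₀ ℤ) (n : ℤ), ip m (fun α => θ α β) + n ≠ z)

/-- Cantor sets of solutions, lacunary case. -/
def S_CAN : Prop := ∀ (t : ℕ → ℤ) (r : ℕ → ℝ) (ε u v : ℝ), 0 < ε → ε ≤ 1 / 4 → t 0 ≠ 0 →
  (∀ j, 4 / ε * |(t j : ℝ)| ≤ |(t (j + 1) : ℝ)|) → 4 ≤ |(t 0 : ℝ)| * (v - u) →
  𝔠 ≤ #({y : ℝ | u ≤ y ∧ y ≤ v ∧ ∀ j, nm ((t j : ℝ) * y - r j) ≤ ε} : Set ℝ)

/-- Fast growing sequences of integers. -/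
def Lac (t : ℕ → ℤ) : Prop := ∀ R : ℝ, ∃ j1 : ℕ, ∀ j, j1 ≤ j → t j ≠ 0 ∧
  ∀ i, i < j → R * |(t i : ℝ)| ≤ |(t j : ℝ)|

/-- Cantor sets of small solutions. -/
def S_CANL : Prop := ∀ (t : ℕ → ℤ) (ε : ℝ), 0 < ε → ((∃ C : ℤ, ∀ j, |t j| ≤ C) ∨ Lac t) →
  𝔠 ≤ #({y : ℝ | ∀ j, nm ((t j : ℝ) * y) ≤ ε} : Set ℝ)

/-- First extraction. -/
def S_SUBA : Prop := ∀ s : ℕ → (ℝ →₀ ℤ), ∃ φ : ℕ → ℕ, StrictMono φ ∧
  ∀ β, (∃ c : ℤ, ∀ᶠ j in atTop, s (φ j) β = c) ∨ Tendsto (fun j => |s (φ j) β|) atTop atTop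

/-- The structure of the final sequences: first or second kind. -/
def Kind1 (t : ℕ → (ℝ →₀ ℤ)) : Prop := (∀ β, (∃ C : ℤ, ∀ j, |t j β| ≤ C) ∨ Lac (fun j => t j β)) ∧
  ∃ a, t 0 a ≠ 0 ∧ ∀ j, 64 * |t j a| ≤ |t (j + 1) a|

def Kind2 (t : ℕ → (ℝ →₀ ℤ)) : Prop := (∀ β, ∃ C : ℤ, ∀ j, |t j β| ≤ C) ∧
  ∃ a : ℕ → ℝ, (∀ j, t j (a j) ≠ 0) ∧ ∀ i j, i < j → t i (a j) = 0

/-- Second extraction. -/
def S_SUBB1 : Prop := ∀ s : ℕ → (ℝ →₀ ℤ),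
  (∀ β, (∃ c : ℤ, ∀ᶠ j in atTop, s j β = c) ∨ Tendsto (fun j => |s j β|) atTop atTop) →
  (∃ a, Tendsto (fun j => |s j a|) atTop atTop) →
  ∃ φ : ℕ → ℕ, StrictMono φ ∧ Kind1 (fun j => s (φ j))

def S_SUBB2 : Prop := ∀ s : ℕ → (ℝ →₀ ℤ), Function.Injective s →
  (∀ β, ∃ c : ℤ, ∀ᶠ j in atTop, s j β = c) →
  ∃ φ : ℕ → ℕ, StrictMono φ ∧ Kind2 (fun j => s (φ j))

/-- The sets of admissible values. -/
def YY (t : ℕ → (ℝ →₀ ℤ)) (J : Set ℕ) : Prop := ∃ Y : ℝ → Set ℝ, (∀ β, 𝔠 ≤ #(Y β)) ∧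
  {β | Y β ≠ Set.univ}.Countable ∧
  ∀ y : ℝ → ℝ, (∀ β, y β ∈ Y β) → ∀ j, nm (ip (t j) y - tg J j) ≤ 1 / 8

def S_SUBC1 : Prop := ∀ t : ℕ → (ℝ →₀ ℤ), Kind1 t → ∀ J : Set ℕ, YY t J

def S_SUBC2 : Prop := ∀ t : ℕ → (ℝ →₀ ℤ), Kind2 t → ∀ J : Set ℕ, YY t J

def S_SUBS : Prop := ∀ s : ℕ → (ℝ →₀ ℤ), Function.Injective s → ∃ φ : ℕ → ℕ, StrictMono φ ∧
  ∀ J : Set ℕ, YY (fun j => s (φ j)) J

/-- Existence of a good matrix. -/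
def S_GOOD : Prop := ∃ θ, Good θ

/-! ## Part II: compact abelian groups -/

/-- Trigonometric polynomials are dense. -/
def S_SW : Prop := ∀ (ι : Type) (f : C(ι → Circle, ℂ)) (ε : ℝ), 0 < ε →
  ∃ P : (ι →₀ ℤ) →₀ ℂ, ∀ x : ι → Circle,
    ‖f x - P.sum (fun k c => c * ((ch k x : Circle) : ℂ))‖ < ε

/-- Averages over closed subgroups. -/
def S_AVG : Prop := ∀ (ι : Type) (L : Subgroup (ι → Circle)), IsClosed (L : Set (ι → Circle)) →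
  ∃ A : C(ι → Circle, ℂ) →ₗ[ℂ] ℂ,
    (∀ (f : C(ι → Circle, ℂ)) (ε : ℝ), (∀ x ∈ L, ‖f x‖ ≤ ε) → ‖A f‖ ≤ ε) ∧
    (∀ (f : C(ι → Circle, ℂ)) (c : ℂ), (∀ x ∈ L, f x = c) → A f = c) ∧
    ∀ (f : C(ι → Circle, ℂ)) (k : ι →₀ ℤ) (c : ℂ), (∀ x ∈ L, f x = c * ((ch k x : Circle) : ℂ)) →
      (∃ x ∈ L, ch k x ≠ 1) → A f = 0

/-- Closed subgroups are annihilators. -/
def S_ANN : Prop := ∀ (ι : Type) (K : Subgroup (ι → Circle)) (g : ι → Circle),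
  g ∉ closure (K : Set (ι → Circle)) → ∃ s : ι →₀ ℤ, (∀ x ∈ K, ch s x = 1) ∧ ch s g ≠ 1

/-- Continuous characters of subgroups of `ι → Circle`. -/
def S_CHAR : Prop := ∀ (ι : Type) (D : Subgroup (ι → Circle)) (χ : ↥D →* Circle), Continuous χ →
  ∃ s : ι →₀ ℤ, ∀ x : ↥D, χ x = ch s (x : ι → Circle)

/-- The countable chain condition. -/
def S_CCC : Prop := ∀ 𝒰 : Set (Set (ℝ → Circle)), (∀ U ∈ 𝒰, IsOpen U ∧ U.Nonempty) →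
  𝒰.PairwiseDisjoint id → 𝒰.Countable

/-- Continuous functions on dense subsets depend on countably many coordinates. -/
def S_FAC : Prop := ∀ (D : Set (ℝ → Circle)), Dense D → ∀ f : ↥D → ℝ, Continuous f →
  ∃ A : Set ℝ, A.Countable ∧ ∀ (x : ↥D) (ε : ℝ), 0 < ε → ∃ (F : Finset ℝ) (δ : ℝ),
    (∀ β ∈ F, β ∈ A) ∧ 0 < δ ∧
    ∀ y : ↥D, (∀ β ∈ F, dist ((y : ℝ → Circle) β) ((x : ℝ → Circle) β) < δ) → |f y - f x| < ε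

/-- Proper subgroups of the circle are zero-dimensional. -/
def S_ARC : Prop := ∀ P : Subgroup Circle, (∃ z, z ∉ P) → ∃ V V' : ℕ → Set Circle,
  (∀ n, IsOpen (V n) ∧ IsOpen (V' n) ∧ Disjoint (V n) (V' n) ∧ ∀ y ∈ P, y ∈ V n ∨ y ∈ V' n) ∧
  ∀ x ∈ P, ∀ δ : ℝ, 0 < δ → ∃ n, x ∈ V n ∧ ∀ y ∈ V n, dist y x < δ

/-- Zero-dimensionality. -/
def S_ZD : Prop := ∀ G : Subgroup (ℝ → Circle), Dense (G : Set (ℝ → Circle)) →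
  (∀ β, ∃ z : Circle, ∀ g ∈ G, g β ≠ z) → ∀ f : ↥G → ℝ, Continuous f →
    ∃ U : Set ↥G, IsClopen U ∧ f ⁻¹' {0} ⊆ U ∧ Disjoint U (f ⁻¹' {1})

/-- Compact spaces in which a sequence is separated in all ways are large. -/
def S_BETA : Prop := ∀ (Z : Type) [TopologicalSpace Z] (K : Set Z), IsCompact K →
  ∀ z : ℕ → Z, (∀ j, z j ∈ K) → (∀ J : Set ℕ, ∃ f : Z → Circle, Continuous f ∧
    ∀ j, dist (f (z j)) (cx (tg J j)) ≤ 9 / 10) → (2 : Cardinal) ^ 𝔠 ≤ #Z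

/-- If compact sets are finite, then the topology of the dual is pointwise. -/
def S_PWG : Prop := ∀ (A : Type) [CommGroup A] [TopologicalSpace A] [IsTopologicalGroup A],
  (∀ C : Set A, IsCompact C → C.Finite) → ∀ (Y : Type) [TopologicalSpace Y]
  (f : Y → PontryaginDual A), (∀ a : A, Continuous (fun y => f y a)) → Continuous f

/-! ## Part III: the group -/

/-- Elementary facts. -/
def S_ALG : Prop :=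
  (∀ x y : ℝ, cx (x + y) = cx x * cx y) ∧ (∀ x : ℝ, cx x = 1 ↔ ∃ n : ℤ, x = n) ∧
  (∀ x y : ℝ, nm (x - y) ≤ 1 / 8 → dist (cx x) (cx y) ≤ 9 / 10) ∧ Continuous cx ∧
  (∀ w : Circle, ∃ x : ℝ, cx x = w) ∧
  (∀ (θ : ℝ → ℝ → ℝ) (m m' : ℝ →₀ ℤ), gm θ (m + m') = gm θ m * gm θ m') ∧
  (∀ (θ : ℝ → ℝ → ℝ) (x : ℝ → Circle), x ∈ GG θ ↔ ∃ m, gm θ m = x) ∧
  (∀ (θ : ℝ → ℝ → ℝ) (s m : ℝ →₀ ℤ), ch s (gm θ m) =
    cx (ip s (fun β => ip m (fun α => θ α β)))) ∧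
  (∀ (θ : ℝ → ℝ → ℝ) (s : ℝ →₀ ℤ) (α : ℝ), ch s (gm θ (Finsupp.single α 1)) =
    cx (ip s (θ α))) ∧
  (∀ (ι : Type) (s s' : ι →₀ ℤ) (x : ι → Circle), ch (s + s') x = ch s x * ch s' x) ∧
  (∀ (ι : Type) (s : ι →₀ ℤ) (x y : ι → Circle), ch s (x * y) = ch s x * ch s y) ∧
  (∀ (ι : Type) (s : ι →₀ ℤ), Continuous (fun x : ι → Circle => ch s x)) ∧
  (∀ (ι : Type) (i : ι) (x : ι → Circle), ch (Finsupp.single i 1) x = x i)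

/-- Kernels are countable. -/
def S_KER : Prop := ∀ θ, Good θ → ∀ s : ℝ →₀ ℤ, s ≠ 0 → {m : ℝ →₀ ℤ | ch s (gm θ m) = 1}.Countable

/-- Injectivity. -/
def S_INJ : Prop := ∀ θ, Good θ → Function.Injective (gm θ) ∧
  Function.Injective (fun (s : ℝ →₀ ℤ) (g : ↥(GG θ)) => ch s (g : ℝ → Circle))

/-- Density, size, coordinates. -/
def S_DEN : Prop := ∀ θ, Good θ → Dense (GG θ : Set (ℝ → Circle)) ∧
  ¬ (GG θ : Set (ℝ → Circle)).Countable ∧ #(↥(GG θ)) ≤ 𝔠 ∧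
  ∀ β, ∃ z : Circle, ∀ g ∈ GG θ, g β ≠ z

/-- Countable subgroups are closed. -/
def S_CLO : Prop := ∀ θ, Good θ → ∀ K : Subgroup ↥(GG θ), (K : Set ↥(GG θ)).Countable →
  IsClosed (K : Set ↥(GG θ))

/-- Uncountable subgroups are dense. -/
def S_UNC : Prop := ∀ θ, Good θ → ∀ K : Subgroup ↥(GG θ), ¬ (K : Set ↥(GG θ)).Countable →
  Dense (K : Set ↥(GG θ))

/-- Compact subsets of the group are finite. -/
def S_CG : Prop := ∀ θ, Good θ → ∀ K : Set ↥(GG θ), IsCompact K → K.Finite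

/-- Compact subsets of the dual group are finite. -/
def S_CD : Prop := ∀ θ, Good θ → ∀ K : Set (PontryaginDual ↥(GG θ)), IsCompact K → K.Finite

/-- The bidual. -/
def S_DD : Prop := ∀ θ, Good θ → ∀ Ψ : PontryaginDual (PontryaginDual ↥(GG θ)),
  ∃ g : ↥(GG θ), ∀ χ : PontryaginDual ↥(GG θ), Ψ χ = χ g

/-- Reflexivity. -/
def S_REF : Prop := ∀ θ, Good θ → ∃ e : ↥(GG θ) ≃ₜ* PontryaginDual (PontryaginDual ↥(GG θ)),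
  ∀ (g : ↥(GG θ)) (χ : PontryaginDual ↥(GG θ)), e g χ = χ g

/-- The frozen statement. -/
def S_FIN : Prop :=
    ∃ H : Subgroup (ℝ → Circle),
      Dense (H : Set (ℝ → Circle)) ∧
      ¬ (H : Set (ℝ → Circle)).Countable ∧
      (∀ f : H → ℝ, Continuous f →
        ∃ U : Set H, IsClopen U ∧ f ⁻¹' {0} ⊆ U ∧ Disjoint U (f ⁻¹' {1})) ∧
      (∀ K : Subgroup H, (K : Set H).Countable → IsClosed (K : Set H)) ∧
      (∀ K : Subgroup H, ¬ (K : Set H).Countable → Dense (K : Set H)) ∧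
      (∃ e : H ≃ₜ* PontryaginDual (PontryaginDual H),
        ∀ (g : H) (χ : PontryaginDual H), e g χ = χ g)

/-- No nontrivial separable quotients. -/
def S_QUO : Prop := ∃ (G : Type) (_ : CommGroup G) (_ : TopologicalSpace G),
  IsTopologicalGroup G ∧ T2Space G ∧ Infinite G ∧
  (∃ e : G ≃ₜ* PontryaginDual (PontryaginDual G), ∀ (g : G) (χ : PontryaginDual G), e g χ = χ g) ∧
  (∀ U ∈ nhds (1 : G), ∃ F : Finset G, ∀ g : G, ∃ f ∈ F, ∃ u ∈ U, g = f * u) ∧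
  ∀ N : Subgroup G, IsClosed (N : Set G) → N ≠ ⊤ → ¬ TopologicalSpace.SeparableSpace (G ⧸ N)

end

end Pool.Agent.W601.SQ
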